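import Pool.Agent.H14.AVS.S3

set_option autoImplicit false
set_option linter.all false

namespace Pool.AVS.KYS

open Polynomial Matrix Pool.AVR

/-- The functions regular at `P` form a subring. -/
def subP {F : Type} [Field F] (hPOL : POLStmt) (P : F[X]) (hP : Irreducible P) :
    Subring (RatFunc F) where
  carrier := IP P
  zero_mem' := by
    have := ((hPOL F).2.2.1 P 0 hP).1
    simpa using this
  one_mem' := by
    have := ((hPOL F).2.2.1 P 1 hP).1
    simpa using this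
  add_mem' := fun {x y} hx hy => ((hPOL F).2.1 P hP x y hx hy).1
  mul_mem' := fun {x y} hx hy => ((hPOL F).2.1 P hP x y hx hy).2.1
  neg_mem' := fun {x} hx => ((hPOL F).2.1 P hP x x hx hx).2.2

theorem MI_mul {L : Type} [Field L] (S : Subring L) {g h : Matrix (Fin 3) (Fin 3) L}
    (hg : MI (S : Set L) g) (hh : MI (S : Set L) h) : MI (S : Set L) (g * h) := by
  intro i j
  rw [Matrix.mul_apply]
  exact Subring.sum_mem _ fun k _ => S.mul_mem (hg i k) (hh k j)

theorem MI_tr {L : Type} [Field L] (S : Set L) {g : Matrix (Fin 3) (Fin 3) L}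
    (hg : MI S g) : MI S gᵀ := fun i j => hg j i

theorem exists_bad {F : Type} [Field F] (xs : List (RatFunc F)) :
    ∃ S : Finset F[X], (∀ P ∈ S, P.Monic ∧ Irreducible P) ∧
      ∀ P : F[X], P.Monic → Irreducible P → P ∉ S → ∀ x ∈ xs, x ∈ IP P := by
  classical
  set D : F[X] := (xs.map fun x => x.denom).prod with hD
  have hD0 : D ≠ 0 := by
    rw [hD]
    apply List.prod_ne_zero
    intro h
    rw [List.mem_map] at h
    obtain ⟨x, -, hx⟩ := h
    exact RatFunc.denom_ne_zero x hx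
  refine ⟨(UniqueFactorizationMonoid.normalizedFactors D).toFinset, ?_, ?_⟩
  · intro P hP
    rw [Multiset.mem_toFinset, UniqueFactorizationMonoid.mem_normalizedFactors_iff' hD0] at hP
    refine ⟨?_, hP.1⟩
    rw [← hP.2.1]
    exact Polynomial.monic_normalize hP.1.ne_zero
  · intro P hm hi hP x hx hdvd
    apply hP
    rw [Multiset.mem_toFinset, UniqueFactorizationMonoid.mem_normalizedFactors_iff' hD0]
    refine ⟨hi, hm.normalize_eq_self, hdvd.trans ?_⟩
    rw [hD]
    exact List.dvd_prod (List.mem_map.2 ⟨x, hx, rfl⟩)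

theorem algMap_mem_inf {F : Type} [Field F] (p : F[X]) (k : ℕ) (h : p.natDegree ≤ k) :
    algebraMap F[X] (RatFunc F) p / (RatFunc.X : RatFunc F) ^ k ∈ Iinf F := by
  show (algebraMap F[X] (RatFunc F) p / (RatFunc.X : RatFunc F) ^ k).intDegree ≤ 0
  by_cases hp : p = 0
  · subst hp
    simp
  have h1 : algebraMap F[X] (RatFunc F) p ≠ 0 := by
    simpa using hp
  have h2 : (RatFunc.X : RatFunc F) ^ k ≠ 0 := pow_ne_zero _ RatFunc.X_ne_zero
  rw [div_eq_mul_inv, RatFunc.intDegree_mul h1 (inv_ne_zero h2), RatFunc.intDegree_inv,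
    RatFunc.intDegree_polynomial]
  have h3 : ((RatFunc.X : RatFunc F) ^ k).intDegree = k := by
    rw [← RatFunc.algebraMap_X, ← map_pow, RatFunc.intDegree_polynomial, natDegree_X_pow]
  rw [h3]
  omega

theorem det_Dm {F : Type} [Field F] (m : ℕ) : IsUnit (Dm (F := F) m).det := by
  rw [isUnit_iff_ne_zero, Dm, Matrix.det_diagonal]
  exact Finset.prod_ne_zero_iff.2 fun i _ => zpow_ne_zero _ RatFunc.X_ne_zero

theorem Dm_tr {F : Type} [Field F] (m : ℕ) : (Dm (F := F) m)ᵀ = Dm m := by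
  rw [Dm, Matrix.diagonal_transpose]

theorem MI_inf_mul {F : Type} [Field F] {g h : Matrix (Fin 3) (Fin 3) (RatFunc F)}
    (hg : MI (Iinf F) g) (hh : MI (Iinf F) h) : MI (Iinf F) (g * h) :=
  MI_mul (OInf F) hg hh

end Pool.AVS.KYS

namespace Pool.AVS

open Polynomial Matrix Pool.AVR KYS

theorem kys_thm (hLAC : LACStmt) (hGLB : GLBStmt) (hNGH : NGHStmt) (hCHH : CHHStmt)
    (hPOL : POLStmt) : KYSStmt := by
  classical
  intro F _ _ h2 n f hf h hcop hsq hsolP hsolI
  set a := (kf f).1 with ha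
  set b := (kf f).2.1 with hb
  set c := (kf f).2.2 with hc
  have haP : a = algebraMap F[X] (RatFunc F) f.1 := rfl
  have hbP : b = algebraMap F[X] (RatFunc F) f.2.1 := rfl
  have hcP : c = algebraMap F[X] (RatFunc F) f.2.2 := rfl
  obtain ⟨hRep, hdet, -⟩ := hNGH (RatFunc F) a b c h
  have hcub : cub a b c = cubK f := rfl
  obtain ⟨ε, hε⟩ := hsq
  have hdetε : (gr0 a b c h).det = -ε ^ 2 := by
    rw [hdet, hcub, hε, sq]
  -- the norm is not zero
  have hε0 : ε ≠ 0 := by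
    intro h0
    have hmon : (cubK f).Monic := by
      rw [← hcub]
      unfold cub
      monicity!
    have hu : IsUnit (AdjoinRoot.mk (cubK f) h) := by
      obtain ⟨u, v, huv⟩ := hcop
      refine IsUnit.of_mul_eq_one (AdjoinRoot.mk (cubK f) u) ?_
      rw [← map_mul, mul_comm h u]
      have h3 : u * h = 1 - v * cubK f := by linear_combination huv
      rw [h3, map_sub, map_one, map_mul, AdjoinRoot.mk_self, mul_zero, sub_zero]
    have h4 := hu.map (Algebra.norm (RatFunc F))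
    rw [hε, h0, mul_zero] at h4
    exact not_isUnit_zero h4
  have hGs : (gr0 a b c h)ᵀ = gr0 a b c h := by
    ext i j
    simp only [Matrix.transpose_apply, gr0, Matrix.of_apply]
    rw [mul_comm (X ^ (j : ℕ)) (X ^ (i : ℕ))]
  have hBs : (gr1 a b c h)ᵀ = gr1 a b c h := by
    ext i j
    simp only [Matrix.transpose_apply, gr1, Matrix.of_apply]
    rw [mul_comm (X ^ (j : ℕ)) (X ^ (i : ℕ))]
  -- bad primes
  obtain ⟨S, hS, hbad⟩ := exists_bad
    ((List.finRange 3).flatMap (fun i => (List.finRange 3).flatMap fun j =>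
      [gr0 a b c h i j, gr1 a b c h i j]) ++
      [(gr0 a b c h).det, ((gr0 a b c h).det)⁻¹])
  have hbad0 : ∀ P : F[X], P.Monic → Irreducible P → P ∉ S → MI (IP P) (gr0 a b c h) := by
    intro P h1 h3 h4 i j
    apply hbad P h1 h3 h4
    simp only [List.mem_append, List.mem_flatMap, List.mem_finRange, true_and]
    left
    exact ⟨i, j, by simp⟩
  have hbad1 : ∀ P : F[X], P.Monic → Irreducible P → P ∉ S → MI (IP P) (gr1 a b c h) := by
    intro P h1 h3 h4 i j
    apply hbad P h1 h3 h4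
    simp only [List.mem_append, List.mem_flatMap, List.mem_finRange, true_and]
    left
    exact ⟨i, j, by simp⟩
  have hdet0 : (gr0 a b c h).det ≠ 0 := by
    rw [hdetε]
    exact neg_ne_zero.2 (pow_ne_zero _ hε0)
  have hbadG : ∀ P : F[X], P.Monic → Irreducible P → P ∉ S → GI (IP P) (gr0 a b c h) := by
    intro P h1 h3 h4
    refine ⟨hbad0 P h1 h3 h4, hdet0, ?_, ?_⟩
    · apply hbad P h1 h3 h4
      simp
    · apply hbad P h1 h3 h4
      simp
  -- local lattices
  have hloc : ∀ P : F[X], ∃ g : Matrix (Fin 3) (Fin 3) (RatFunc F), (P.Monic ∧ Irreducible P) →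
      (g.det ≠ 0 ∧ GI (IP P) (gᵀ * gr0 a b c h * g) ∧ MI (IP P) (gᵀ * gr1 a b c h * g)) := by
    intro P
    by_cases hp : P.Monic ∧ Irreducible P
    · obtain ⟨L, _, O, ι, hcomp, hls⟩ := hsolP P hp.1 hp.2
      obtain ⟨g, hg1, hg2, hg3⟩ := hLAC F (IP P) (algebraMap F[X] (RatFunc F) P) L O ι hcomp 1
        a b c h one_ne_zero
        (by rw [one_pow, div_one, haP]; exact ((hPOL F).2.2.1 P _ hp.2).1)
        (by rw [one_pow, div_one, hbP]; exact ((hPOL F).2.2.1 P _ hp.2).1)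
        (by rw [one_pow, div_one, hcP]; exact ((hPOL F).2.2.1 P _ hp.2).1) hls
      refine ⟨g, fun _ => ⟨hg1, hg2, ?_⟩⟩
      rw [one_pow, inv_one, one_smul] at hg3
      exact hg3
    · exact ⟨1, fun h => absurd h hp⟩
  choose gP hgP using hloc
  -- the lattice at infinity
  obtain ⟨L, _, O, ι, hcomp, hls⟩ := hsolI
  obtain ⟨gi, hgi1, hgi2, hgi3⟩ := hLAC F (Iinf F) (RatFunc.X)⁻¹ L O ι hcomp
    ((RatFunc.X : RatFunc F) ^ n) a b c h (pow_ne_zero _ RatFunc.X_ne_zero)
    (by rw [← pow_mul, haP]; exact algMap_mem_inf _ _ (by rw [mul_comm]; exact hf.1))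
    (by rw [← pow_mul, hbP]; exact algMap_mem_inf _ _ (by rw [mul_comm]; exact hf.2.1))
    (by rw [← pow_mul, hcP]; exact algMap_mem_inf _ _ (by rw [mul_comm]; exact hf.2.2)) hls
  obtain ⟨m, g, hgA, hgS, hgN, κ, hκ, hgκ⟩ := hGLB F h2 (gr0 a b c h) ε S gP gi hGs hε0 hdetε hS
    (fun P hP => ⟨(hgP P (hS P hP)).1, (hgP P (hS P hP)).2.1⟩) hbadG hgi1 hgi2
  -- integrality at all finite primes
  have hint : ∀ P : F[X], P.Monic → Irreducible P → MI (IP P) (gᵀ * gr1 a b c h * g) := by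
    intro P h1 h3
    by_cases hPS : P ∈ S
    · obtain ⟨κP, hκP, hgP'⟩ := hgS P hPS
      have e : gᵀ * gr1 a b c h * g = κPᵀ * ((gP P)ᵀ * gr1 a b c h * gP P) * κP := by
        rw [hgP', Matrix.transpose_mul]
        simp only [Matrix.mul_assoc]
      rw [e]
      exact MI_mul (subP hPOL P h3) (MI_mul (subP hPOL P h3) (MI_tr _ hκP.1)
        (hgP P ⟨h1, h3⟩).2.2) hκP.1
    · exact MI_mul (subP hPOL P h3) (MI_mul (subP hPOL P h3) (MI_tr _ (hgN P h1 h3 hPS).1)
        (hbad1 P h1 h3 hPS)) (hgN P h1 h3 hPS).1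
  have hpoly : ∀ i j, ∃ p : F[X], (gᵀ * gr1 a b c h * g) i j = algebraMap F[X] (RatFunc F) p :=
    fun i j => (hPOL F).1 _ fun P h1 h3 => hint P h1 h3 i j
  choose B hB using hpoly
  have hBm : (Matrix.of B).map (algebraMap F[X] (RatFunc F)) = gᵀ * gr1 a b c h * g := by
    ext i j
    rw [Matrix.map_apply, Matrix.of_apply, hB]
  have hBsym : (Matrix.of B)ᵀ = Matrix.of B := by
    ext1 i j
    apply RatFunc.algebraMap_injective F
    rw [Matrix.transpose_apply, Matrix.of_apply, Matrix.of_apply, ← hB, ← hB]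
    have e : (gᵀ * gr1 a b c h * g)ᵀ = gᵀ * gr1 a b c h * g := by
      rw [Matrix.transpose_mul, Matrix.transpose_mul, Matrix.transpose_transpose, hBs,
        Matrix.mul_assoc]
    calc (gᵀ * gr1 a b c h * g) j i = ((gᵀ * gr1 a b c h * g)ᵀ) i j := rfl
      _ = (gᵀ * gr1 a b c h * g) i j := by rw [e]
  refine ⟨m, Matrix.of B, ?_, ?_⟩
  · rw [(hPOL F).2.2.2 n m _ hBsym, hBm]
    have e : (Dm m)⁻¹ * (gᵀ * gr1 a b c h * g) * (Dm m)⁻¹ =
        κᵀ * (giᵀ * gr1 a b c h * gi) * κ := by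
      rw [hgκ, Matrix.transpose_mul, Matrix.transpose_mul, Dm_tr]
      calc (Dm m)⁻¹ * (Dm m * (κᵀ * giᵀ) * gr1 a b c h * (gi * κ * Dm m)) * (Dm m)⁻¹
          = ((Dm m)⁻¹ * Dm m) * (κᵀ * giᵀ * gr1 a b c h * (gi * κ)) * (Dm m * (Dm m)⁻¹) := by
            simp only [Matrix.mul_assoc]
        _ = κᵀ * giᵀ * gr1 a b c h * (gi * κ) := by
            rw [Matrix.nonsing_inv_mul _ (det_Dm m), Matrix.mul_nonsing_inv _ (det_Dm m),
              Matrix.one_mul, Matrix.mul_one]
        _ = κᵀ * (giᵀ * gr1 a b c h * gi) * κ := by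
            simp only [Matrix.mul_assoc]
    have e2 : ((RatFunc.X : RatFunc F) ^ (-(2 * n : ℤ))) • (κᵀ * (giᵀ * gr1 a b c h * gi) * κ) =
        κᵀ * (((((RatFunc.X : RatFunc F) ^ n) ^ 2)⁻¹) • (giᵀ * gr1 a b c h * gi)) * κ := by
      have e3 : (RatFunc.X : RatFunc F) ^ (-(2 * n : ℤ)) = (((RatFunc.X : RatFunc F) ^ n) ^ 2)⁻¹ := by
        rw [_root_.zpow_neg, ← pow_mul]
        congr 1
        rw [show (2 * n : ℤ) = ((n * 2 : ℕ) : ℤ) by push_cast; ring, zpow_natCast]
      rw [e3, Matrix.mul_smul, Matrix.smul_mul]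
    rw [e, e2]
    exact MI_inf_mul (MI_inf_mul (MI_tr _ hκ.1) hgi3) hκ.1
  · rw [hBm, ← hgA]
    exact hCHH (RatFunc F) a b c h _ _ g hRep

end Pool.AVS
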