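import Pool.Agent.H14.AVS.S3

set_option autoImplicit false
set_option linter.all false

namespace Pool.AVS.LAC

open Polynomial Matrix Pool.AVR

theorem cub_monic {R : Type} [CommRing R] [Nontrivial R] (a b c : R) : (cub a b c).Monic := by
  unfold cub
  monicity!

theorem cub_map {R S : Type} [CommRing R] [CommRing S] (ι : R →+* S) (a b c : R) :
    (cub a b c).map ι = cub (ι a) (ι b) (ι c) := by
  unfold cub
  simp

theorem tau_map {K L : Type} [Field K] [Field L] (ι : K →+* L) (a b c : K) (p : K[X]) :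
    ι (tau a b c p) = tau (ι a) (ι b) (ι c) (p.map ι) := by
  unfold tau
  rw [← cub_map, ← Polynomial.map_modByMonic ι (cub_monic a b c), Polynomial.coeff_map]

theorem gr0_map {K L : Type} [Field K] [Field L] (ι : K →+* L) (a b c : K) (h : K[X]) :
    (gr0 a b c h).map ι = gr0 (ι a) (ι b) (ι c) (h.map ι) := by
  ext i j
  simp only [gr0, Matrix.map_apply, Matrix.of_apply]
  rw [tau_map]
  simp

theorem gr1_map {K L : Type} [Field K] [Field L] (ι : K →+* L) (a b c : K) (h : K[X]) :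
    (gr1 a b c h).map ι = gr1 (ι a) (ι b) (ι c) (h.map ι) := by
  ext i j
  simp only [gr1, Matrix.map_apply, Matrix.of_apply]
  rw [tau_map]
  simp

theorem MI_mul {L : Type} [Field L] (S : Subring L) {g h : Matrix (Fin 3) (Fin 3) L}
    (hg : MI (S : Set L) g) (hh : MI (S : Set L) h) : MI (S : Set L) (g * h) := by
  intro i j
  rw [Matrix.mul_apply]
  exact Subring.sum_mem _ fun k _ => S.mul_mem (hg i k) (hh k j)

theorem MI_mulO {L : Type} [Field L] (O : ValuationSubring L) {g h : Matrix (Fin 3) (Fin 3) L}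
    (hg : MI (O : Set L) g) (hh : MI (O : Set L) h) : MI (O : Set L) (g * h) :=
  MI_mul O.toSubring hg hh

theorem MI_tr {L : Type} [Field L] (S : Set L) {g : Matrix (Fin 3) (Fin 3) L}
    (hg : MI S g) : MI S gᵀ := fun i j => hg j i

theorem MI_adj {L : Type} [Field L] (O : ValuationSubring L) {g : Matrix (Fin 3) (Fin 3) L}
    (hg : MI (O : Set L) g) : MI (O : Set L) g.adjugate := by
  let g₀ : Matrix (Fin 3) (Fin 3) O := fun i j => ⟨g i j, hg i j⟩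
  have h1 : (O.subtype).mapMatrix g₀ = g := by
    ext i j
    rfl
  intro i j
  rw [← h1, ← RingHom.map_adjugate]
  exact (g₀.adjugate i j).2

theorem GI_inv {L : Type} [Field L] (O : ValuationSubring L) {g : Matrix (Fin 3) (Fin 3) L}
    (hg : GI (O : Set L) g) : GI (O : Set L) g⁻¹ := by
  obtain ⟨h1, h2, h3, h4⟩ := hg
  refine ⟨?_, ?_⟩
  · rw [Matrix.inv_def, Ring.inverse_eq_inv']
    intro i j
    rw [Matrix.smul_apply, smul_eq_mul]
    exact O.mul_mem _ _ h4 (MI_adj O h1 i j)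
  · rw [Matrix.det_nonsing_inv, Ring.inverse_eq_inv']
    exact ⟨inv_ne_zero h2, h4, by rw [inv_inv]; exact h3⟩

theorem det_AA (L : Type) [Field L] : (AA L).det = -1 := by
  rw [Matrix.det_fin_three]
  simp [AA]

theorem norm_ne_zero {K : Type} [Field K] {a b c : K} {h : K[X]} (hc : IsCoprime h (cub a b c)) :
    Algebra.norm K (AdjoinRoot.mk (cub a b c) h) ≠ 0 := by
  intro h0
  have hu : IsUnit (AdjoinRoot.mk (cub a b c) h) := by
    obtain ⟨u, v, huv⟩ := hc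
    refine IsUnit.of_mul_eq_one (AdjoinRoot.mk (cub a b c) u) ?_
    rw [← map_mul, mul_comm h u]
    have h3 : u * h = 1 - v * cub a b c := by linear_combination huv
    rw [h3, map_sub, map_one, map_mul, AdjoinRoot.mk_self, mul_zero, sub_zero]
  have h4 := hu.map (Algebra.norm K)
  rw [h0] at h4
  exact not_isUnit_zero h4

end Pool.AVS.LAC

namespace Pool.AVS

open Polynomial Matrix Pool.AVR LAC

theorem lac_thm (hPTB : PTBStmt) (hCHH : CHHStmt) (hBSH : BSHStmt) (hNGH : NGHStmt)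
    (hLTO : LTOStmt) (hAPX : APXStmt) : LACStmt := by
  classical
  intro F _ I ϖ L _ O ι hcomp τ a b c h hτ haI hbI hcI hls
  obtain ⟨x, y, hxy, hy, s, hs⟩ := hls
  have h2L : (2 : L) ≠ 0 := hcomp.loc.two.1
  obtain ⟨⟨hBPs, hia, hib, hic⟩, hrep⟩ := hPTB L h2L (ι a) (ι b) (ι c) x y hxy
  have hrep := hrep hy (h.map ι) s hs
  set BPm := BP (ι a) (ι b) x y with hBPm
  have hτL : ι τ ≠ 0 := (_root_.map_ne_zero ι).2 hτ
  -- the scaled matrix
  set B1 : Matrix (Fin 3) (Fin 3) L := ((ι τ) ^ 2)⁻¹ • BPm with hB1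
  have hB1s : B1ᵀ = B1 := by rw [hB1, Matrix.transpose_smul, hBPs]
  have e1 : ia B1 = ι (a / τ ^ 2) := by
    rw [map_div₀, map_pow, ← hia, hB1]
    simp only [ia, Matrix.smul_apply, smul_eq_mul]
    field_simp
    try ring
  have e2 : ib B1 = ι (b / τ ^ 4) := by
    rw [map_div₀, map_pow, ← hib, hB1]
    simp only [ib, Matrix.smul_apply, smul_eq_mul]
    field_simp
    try ring
  have e3 : ic B1 = ι (c / τ ^ 6) := by
    rw [map_div₀, map_pow, ← hic, hB1]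
    simp only [ic, Matrix.det_smul, Fintype.card_fin]
    field_simp
    try ring
  have hcov : Cov B1 ![1, 0, 0] ((ι τ)⁻¹) := by
    refine ⟨?_, ?_, ?_⟩
    · intro h0
      have := congrFun h0 0
      simp at this
    · simp [bil, AA, dotProduct, Matrix.mulVec, Fin.sum_univ_three]
    · rw [hB1, hBPm]
      simp [bil, BP, dotProduct, Matrix.mulVec, Fin.sum_univ_three, Matrix.smul_apply]
  obtain ⟨g1, μ, hg1A, hg1d, hg1B, -⟩ := hLTO L O (ι ϖ) hcomp.loc B1 ![1, 0, 0] ((ι τ)⁻¹) hB1s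
    (by rw [e1]; exact (hcomp.mem _).2 haI) (by rw [e2]; exact (hcomp.mem _).2 hbI)
    (by rw [e3]; exact (hcomp.mem _).2 hcI) hcov (inv_ne_zero hτL)
  -- the Gram matrices of 1, X, X^2 over L
  obtain ⟨hRL, hdetL, hAAL⟩ := hNGH L (ι a) (ι b) (ι c) (h.map ι)
  have hcopL := (hAAL BPm hrep).1
  have hdet0 : (gr0 (ι a) (ι b) (ι c) (h.map ι)).det ≠ 0 := by
    rw [hdetL]
    exact neg_ne_zero.2 (norm_ne_zero hcopL)
  obtain ⟨g2, hg2A, hg2B⟩ := hBSH L (ι a) (ι b) (ι c) (h.map ι) (AA L) BPm _ _ hrep hRL hdet0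
  have hg2d : g2.det ≠ 0 := by
    intro h0
    have := congrArg Matrix.det hg2A
    rw [det_AA, Matrix.det_mul, h0, mul_zero] at this
    exact neg_ne_zero.2 one_ne_zero this
  have hgLd : (g2 * g1).det ≠ 0 := by
    rw [Matrix.det_mul, hg1d, mul_one]
    exact hg2d
  obtain ⟨g', κ, hg'd, hκ, hg'κ⟩ := hAPX F I ϖ L O ι hcomp (g2 * g1) hgLd
  have hκd : IsUnit κ.det := isUnit_iff_ne_zero.2 hκ.2.1
  have hM : g'.map ι = g2 * g1 * κ⁻¹ := by
    rw [hg'κ, Matrix.mul_assoc, Matrix.mul_nonsing_inv _ hκd, Matrix.mul_one]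
  have hκi := GI_inv O hκ
  have k0 : (g'ᵀ * gr0 a b c h * g').map ι = (κ⁻¹)ᵀ * AA L * κ⁻¹ := by
    rw [Matrix.map_mul, Matrix.map_mul, Matrix.transpose_map, hM, gr0_map, Matrix.transpose_mul,
      Matrix.transpose_mul]
    calc (κ⁻¹)ᵀ * (g1ᵀ * g2ᵀ) * gr0 (ι a) (ι b) (ι c) (h.map ι) * (g2 * g1 * κ⁻¹)
        = (κ⁻¹)ᵀ * (g1ᵀ * (g2ᵀ * gr0 (ι a) (ι b) (ι c) (h.map ι) * g2) * g1) * κ⁻¹ := by
          simp only [Matrix.mul_assoc]
      _ = (κ⁻¹)ᵀ * AA L * κ⁻¹ := by rw [← hg2A, hg1A]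
  have k1 : (((τ ^ 2)⁻¹) • (g'ᵀ * gr1 a b c h * g')).map ι =
      (κ⁻¹)ᵀ * (g1ᵀ * B1 * g1) * κ⁻¹ := by
    have k2 : (g'ᵀ * gr1 a b c h * g').map ι = (κ⁻¹)ᵀ * (g1ᵀ * BPm * g1) * κ⁻¹ := by
      rw [Matrix.map_mul, Matrix.map_mul, Matrix.transpose_map, hM, gr1_map,
        Matrix.transpose_mul, Matrix.transpose_mul]
      calc (κ⁻¹)ᵀ * (g1ᵀ * g2ᵀ) * gr1 (ι a) (ι b) (ι c) (h.map ι) * (g2 * g1 * κ⁻¹)
          = (κ⁻¹)ᵀ * (g1ᵀ * (g2ᵀ * gr1 (ι a) (ι b) (ι c) (h.map ι) * g2) * g1) * κ⁻¹ := by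
            simp only [Matrix.mul_assoc]
        _ = (κ⁻¹)ᵀ * (g1ᵀ * BPm * g1) * κ⁻¹ := by rw [← hg2B]
    have k3 : (((τ ^ 2)⁻¹) • (g'ᵀ * gr1 a b c h * g')).map ι =
        ((ι τ ^ 2)⁻¹) • (g'ᵀ * gr1 a b c h * g').map ι := by
      ext i j
      simp only [Matrix.map_apply, Matrix.smul_apply, smul_eq_mul, map_mul, map_inv₀, map_pow]
    rw [k3, k2, hB1, Matrix.mul_smul, Matrix.smul_mul, Matrix.mul_smul, Matrix.smul_mul]
  refine ⟨g', hg'd, ⟨?_, ?_⟩, ?_⟩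
  · intro i j
    rw [← hcomp.mem]
    have : ι ((g'ᵀ * gr0 a b c h * g') i j) = ((κ⁻¹)ᵀ * AA L * κ⁻¹) i j := by
      rw [← k0, Matrix.map_apply]
    rw [this]
    refine MI_mulO O (MI_mulO O (MI_tr _ hκi.1) ?_) hκi.1 i j
    intro i j
    fin_cases i <;> fin_cases j <;> simp [AA, O.zero_mem, O.one_mem]
  · have hd : ι ((g'ᵀ * gr0 a b c h * g').det) = -((κ⁻¹).det) ^ 2 := by
      have : ι ((g'ᵀ * gr0 a b c h * g').det) = ((g'ᵀ * gr0 a b c h * g').map ι).det := by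
        rw [RingHom.map_det]
        rfl
      rw [this, k0, Matrix.det_mul, Matrix.det_mul, Matrix.det_transpose, det_AA]
      ring
    obtain ⟨u1, u2, u3⟩ := hκi.2
    have hne : ι ((g'ᵀ * gr0 a b c h * g').det) ≠ 0 := by
      rw [hd]
      exact neg_ne_zero.2 (pow_ne_zero _ u1)
    refine ⟨fun h0 => hne (by rw [h0, map_zero]), ?_, ?_⟩
    · rw [← hcomp.mem, hd]
      exact O.neg_mem _ (pow_mem u2 2)
    · rw [← hcomp.mem, map_inv₀, hd, inv_neg, ← inv_pow]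
      exact O.neg_mem _ (pow_mem u3 2)
  · intro i j
    rw [← hcomp.mem]
    have : ι ((((τ ^ 2)⁻¹) • (g'ᵀ * gr1 a b c h * g')) i j) =
        ((κ⁻¹)ᵀ * (g1ᵀ * B1 * g1) * κ⁻¹) i j := by
      rw [← k1, Matrix.map_apply]
    rw [this]
    exact MI_mulO O (MI_mulO O (MI_tr _ hκi.1) hg1B) hκi.1 i j

end Pool.AVS
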